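import Pool.Agent.H24.SCG3.Stmts6

/-! Project SCG3: strings of elations (rows EALT, EBV). -/

namespace Pool.Agent.H54.SCG3

open Matrix Pool.SCG

variable {F : Type*} [Field F]

/-- proportional vectors -/
def Pr (x y : Fin 3 → F) : Prop := ∃ c : F, y = c • x

theorem Pr.rfl' (x : Fin 3 → F) : Pr x x := ⟨1, (one_smul _ _).symm⟩

theorem Pr.symm' {x y : Fin 3 → F} (hy : y ≠ 0) (h : Pr x y) : Pr y x := by
  obtain ⟨c, hc⟩ := h
  have hc0 : c ≠ 0 := by
    rintro rfl
    rw [zero_smul] at hc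
    exact hy hc
  exact ⟨c⁻¹, by rw [hc, smul_smul, inv_mul_cancel₀ hc0, one_smul]⟩

theorem Pr.trans' {x y z : Fin 3 → F} (h : Pr x y) (h' : Pr y z) : Pr x z := by
  obtain ⟨c, hc⟩ := h
  obtain ⟨d, hd⟩ := h'
  exact ⟨d * c, by rw [hd, hc, smul_smul]⟩

theorem dot3 (x y : Fin 3 → F) : x ⬝ᵥ y = x 0 * y 0 + x 1 * y 1 + x 2 * y 2 := by
  rw [dotProduct, Fin.sum_univ_three]

/-- vectors with vanishing minors are proportional -/
theorem pr_of_minors {x y : Fin 3 → F} (hx : x ≠ 0) (h01 : x 0 * y 1 = x 1 * y 0)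
    (h02 : x 0 * y 2 = x 2 * y 0) (h12 : x 1 * y 2 = x 2 * y 1) : Pr x y := by
  have hne : x 0 ≠ 0 ∨ x 1 ≠ 0 ∨ x 2 ≠ 0 := by
    by_contra hcon
    push Not at hcon
    apply hx
    funext i
    fin_cases i
    · exact hcon.1
    · exact hcon.2.1
    · exact hcon.2.2
  rcases hne with h | h | h
  · refine ⟨y 0 / x 0, ?_⟩
    funext i
    fin_cases i <;> simp only [Pi.smul_apply, smul_eq_mul]
    · show y 0 = y 0 / x 0 * x 0
      field_simp
    · show y 1 = y 0 / x 0 * x 1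
      field_simp
      linear_combination h01
    · show y 2 = y 0 / x 0 * x 2
      field_simp
      linear_combination h02
  · refine ⟨y 1 / x 1, ?_⟩
    funext i
    fin_cases i <;> simp only [Pi.smul_apply, smul_eq_mul]
    · show y 0 = y 1 / x 1 * x 0
      field_simp
      linear_combination -h01
    · show y 1 = y 1 / x 1 * x 1
      field_simp
    · show y 2 = y 1 / x 1 * x 2
      field_simp
      linear_combination h12
  · refine ⟨y 2 / x 2, ?_⟩
    funext i
    fin_cases i <;> simp only [Pi.smul_apply, smul_eq_mul]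
    · show y 0 = y 2 / x 2 * x 0
      field_simp
      linear_combination -h02
    · show y 1 = y 2 / x 2 * x 1
      field_simp
      linear_combination -h12
    · show y 2 = y 2 / x 2 * x 2
      field_simp

/-- two functionals which kill two vectors: the functionals or the vectors are proportional -/
theorem share {u v φ ψ : Fin 3 → F} (hu : u ≠ 0) (hφ : φ ≠ 0) (h1 : φ ⬝ᵥ u = 0)
    (h2 : ψ ⬝ᵥ u = 0) (h3 : φ ⬝ᵥ v = 0) (h4 : ψ ⬝ᵥ v = 0) : Pr φ ψ ∨ Pr u v := by
  rw [dot3] at h1 h2 h3 h4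
  by_cases hm : φ 0 * ψ 1 = φ 1 * ψ 0 ∧ φ 0 * ψ 2 = φ 2 * ψ 0 ∧ φ 1 * ψ 2 = φ 2 * ψ 1
  · exact Or.inl (pr_of_minors hφ hm.1 hm.2.1 hm.2.2)
  · right
    -- the minors `w` of `φ, ψ`; `u` and `v` are proportional to `w`
    obtain ⟨w0, hw0⟩ : ∃ w0 : F, w0 = φ 1 * ψ 2 - φ 2 * ψ 1 := ⟨_, rfl⟩
    obtain ⟨w1, hw1⟩ : ∃ w1 : F, w1 = φ 2 * ψ 0 - φ 0 * ψ 2 := ⟨_, rfl⟩
    obtain ⟨w2, hw2⟩ : ∃ w2 : F, w2 = φ 0 * ψ 1 - φ 1 * ψ 0 := ⟨_, rfl⟩
    have hw : (![w0, w1, w2] : Fin 3 → F) ≠ 0 := by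
      intro h
      have e0 := congrFun h 0
      have e1 := congrFun h 1
      have e2 := congrFun h 2
      simp at e0 e1 e2
      apply hm
      refine ⟨?_, ?_, ?_⟩
      · rw [e2] at hw2; linear_combination -hw2
      · rw [e1] at hw1; linear_combination hw1
      · rw [e0] at hw0; linear_combination -hw0
    have key : ∀ z : Fin 3 → F, φ 0 * z 0 + φ 1 * z 1 + φ 2 * z 2 = 0 →
        ψ 0 * z 0 + ψ 1 * z 1 + ψ 2 * z 2 = 0 → Pr (![w0, w1, w2] : Fin 3 → F) z := by
      intro z a1 a2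
      refine pr_of_minors hw ?_ ?_ ?_
      · show w0 * z 1 = w1 * z 0
        rw [hw0, hw1]
        linear_combination ψ 2 * a1 - φ 2 * a2
      · show w0 * z 2 = w2 * z 0
        rw [hw0, hw2]
        linear_combination -ψ 1 * a1 + φ 1 * a2
      · show w1 * z 2 = w2 * z 1
        rw [hw1, hw2]
        linear_combination ψ 0 * a1 - φ 0 * a2
    exact (Pr.symm' hu (key u h1 h2)).trans' (key v h3 h4)

/-- two equivalence relations on a string -/
theorem alt {r : ℕ} (A C : Fin r → Fin r → Prop) (Ar : ∀ i, A i i)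
    (As : ∀ i j, A i j → A j i) (At : ∀ i j k, A i j → A j k → A i k)
    (Cs : ∀ i j, C i j → C j i) (Ct : ∀ i j k, C i j → C j k → C i k)
    (hd : ∀ i j : Fin r, i.val + 2 ≤ j.val → A i j ∨ C i j)
    (hn : ∀ i j : Fin r, i.val + 1 = j.val → ¬ A i j ∧ ¬ C i j)
    (h02 : ∀ i j : Fin r, i.val = 0 → j.val = 2 → A i j) :
    ∀ i j : Fin r, i.val % 2 = j.val % 2 → A i j := by
  -- even and odd indices against the index zero
  have h1 : ∀ (n : ℕ) (hn : n + 2 < r) (z : Fin r), z.val = 0 →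
      ((n % 2 = 0 → A z ⟨n + 2, hn⟩) ∧ (n % 2 = 1 → C z ⟨n + 2, hn⟩)) := by
    intro n
    induction n with
    | zero =>
      intro hr z hz
      exact ⟨fun _ => h02 z _ hz rfl, fun h => by simp at h⟩
    | succ n ih =>
      intro hr z hz
      have hr' : n + 2 < r := by omega
      have ihz := ih hr' z hz
      have hk := hd z ⟨n + 1 + 2, hr⟩ (by show z.val + 2 ≤ n + 1 + 2; omega)
      have hnb := hn ⟨n + 2, hr'⟩ ⟨n + 1 + 2, hr⟩ (by show n + 2 + 1 = n + 1 + 2; omega)
      refine ⟨fun hp => ?_, fun hp => ?_⟩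
      · have hC := ihz.2 (by omega)
        rcases hk with h | h
        · exact h
        · exact absurd (Ct _ _ _ (Cs _ _ hC) h) hnb.2
      · have hA := ihz.1 (by omega)
        rcases hk with h | h
        · exact absurd (At _ _ _ (As _ _ hA) h) hnb.1
        · exact h
  -- every index is equivalent to `0` or to `1`
  have h2 : ∀ (j : Fin r) (b : Fin r), b.val < 2 → b.val = j.val % 2 → A b j := by
    intro j b hb hbj
    by_cases hj : j.val < 2
    · have : b = j := Fin.ext (by omega)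
      rw [this]
      exact Ar j
    · obtain ⟨n, hn'⟩ : ∃ n, j.val = n + 2 := ⟨j.val - 2, by omega⟩
      have hr : n + 2 < r := by omega
      have hjn : j = ⟨n + 2, hr⟩ := Fin.ext hn'
      by_cases h0 : b.val = 0
      · rw [hjn]
        exact (h1 n hr b h0).1 (by omega)
      · have h1b : b.val = 1 := by omega
        have hz : 0 < r := by omega
        have hC : C ⟨0, hz⟩ j := by
          rw [hjn]
          exact (h1 n hr ⟨0, hz⟩ rfl).2 (by omega)
        have hj3 : b.val + 2 ≤ j.val := by omega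
        rcases hd b j hj3 with h | h
        · exact h
        · exact absurd (Ct _ _ _ hC (Cs _ _ h)) (hn ⟨0, hz⟩ b (by simp only; omega)).2
  intro i j hij
  have hb : i.val % 2 < r := by
    have := i.2
    have := Nat.mod_le i.val 2
    omega
  have ha := h2 i ⟨i.val % 2, hb⟩ (by simp only; omega) rfl
  have hc := h2 j ⟨i.val % 2, hb⟩ (by simp only; omega) (by simpa using hij)
  exact At _ _ _ (As _ _ ha) hc

theorem ealt_thm (hEC1 : EC1Stmt) : EALTStmt := by
  intro F _ r ρ u φ hEl hcom hnc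
  have hA : ∀ i j, φ j ≠ 0 → (Pr (φ i) (φ j) → Pr (φ j) (φ i)) := fun i j h => Pr.symm' h
  -- commuting elations
  have hd : ∀ i j : Fin r, i.val + 2 ≤ j.val → Pr (φ i) (φ j) ∨ Pr (u i) (u j) := by
    intro i j hij
    have h := (hEC1 F _ _ _ _ _ _ (hEl i) (hEl j)).1 (hcom i j hij)
    exact share (hEl i).u0 (hEl i).p0 (hEl i).pu h.2 h.1 (hEl j).pu
  have hn : ∀ i j : Fin r, i.val + 1 = j.val → ¬ Pr (φ i) (φ j) ∧ ¬ Pr (u i) (u j) := by
    intro i j hij
    have h := hnc i j hij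
    constructor
    · intro hp
      apply h
      rw [hEC1 F _ _ _ _ _ _ (hEl i) (hEl j)]
      obtain ⟨c, hc⟩ := hp
      have e1 := (hEl j).pu
      have e2 := (hEl i).pu
      have hc0 : c ≠ 0 := by
        rintro rfl
        rw [zero_smul] at hc
        exact (hEl j).p0 hc
      constructor
      · rw [hc, smul_dotProduct, smul_eq_mul] at e1
        rcases mul_eq_zero.1 e1 with h0 | h0
        · exact absurd h0 hc0
        · exact h0
      · rw [hc, smul_dotProduct, e2, smul_zero]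
    · intro hp
      apply h
      rw [hEC1 F _ _ _ _ _ _ (hEl i) (hEl j)]
      obtain ⟨c, hc⟩ := hp
      have e1 := (hEl j).pu
      have e2 := (hEl i).pu
      have hc0 : c ≠ 0 := by
        rintro rfl
        rw [zero_smul] at hc
        exact (hEl j).u0 hc
      constructor
      · rw [hc, dotProduct_smul, e2, smul_zero]
      · rw [hc, dotProduct_smul, smul_eq_mul] at e1
        rcases mul_eq_zero.1 e1 with h0 | h0
        · exact absurd h0 hc0
        · exact h0
  have alt1 := alt (fun i j => Pr (φ i) (φ j)) (fun i j => Pr (u i) (u j)) (fun i => Pr.rfl' _)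
    (fun i j h => h.symm' (hEl j).p0) (fun i j k h h' => h.trans' h')
    (fun i j h => h.symm' (hEl j).u0) (fun i j k h h' => h.trans' h') hd hn
  have alt2 := alt (fun i j => Pr (u i) (u j)) (fun i j => Pr (φ i) (φ j)) (fun i => Pr.rfl' _)
    (fun i j h => h.symm' (hEl j).u0) (fun i j k h h' => h.trans' h')
    (fun i j h => h.symm' (hEl j).p0) (fun i j k h h' => h.trans' h')
    (fun i j h => (hd i j h).symm) (fun i j h => (hn i j h).symm)
  by_cases hr : 2 < r
  · rcases hd ⟨0, by omega⟩ ⟨2, hr⟩ (by simp) with h | h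
    · left
      refine alt1 ?_
      intro i j hi hj
      have ei : i = ⟨0, by omega⟩ := Fin.ext hi
      have ej : j = ⟨2, hr⟩ := Fin.ext hj
      rw [ei, ej]
      exact h
    · right
      refine alt2 ?_
      intro i j hi hj
      have ei : i = ⟨0, by omega⟩ := Fin.ext hi
      have ej : j = ⟨2, hr⟩ := Fin.ext hj
      rw [ei, ej]
      exact h
  · left
    refine alt1 ?_
    intro i j _ hj
    exact absurd j.2 (by omega)

/-! ### EBV -/

/-- two functionals have a common zero -/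
theorem exists_kill (a b : Fin 3 → F) : ∃ w : Fin 3 → F, w ≠ 0 ∧ a ⬝ᵥ w = 0 ∧ b ⬝ᵥ w = 0 := by
  have hdet : (Matrix.of ![a, b, 0] : M3 F).det = 0 := by
    refine Matrix.det_eq_zero_of_row_eq_zero 2 ?_
    intro j
    rfl
  obtain ⟨w, hw, h⟩ := Matrix.exists_mulVec_eq_zero_iff.2 hdet
  exact ⟨w, hw, congrFun h 0, congrFun h 1⟩

/-- every nonzero vector is moved -/
theorem exists_move {w : Fin 3 → F} (hw : w ≠ 0) : ∃ m : SL3 F, (m : M3 F) *ᵥ w ≠ w := by
  obtain ⟨k, hk⟩ : ∃ k, w k ≠ 0 := by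
    by_contra hcon
    push Not at hcon
    exact hw (funext hcon)
  obtain ⟨i, hik⟩ : ∃ i : Fin 3, i ≠ k := exists_ne k
  refine ⟨⟨Matrix.transvection i k 1, Matrix.det_transvection_of_ne i k hik 1⟩, ?_⟩
  intro h
  have h1 := congrFun h i
  change (Matrix.transvection i k (1 : F) *ᵥ w) i = w i at h1
  have h2 : (Matrix.single i k (1 : F) *ᵥ w) i = w k := by
    rw [Matrix.mulVec, dotProduct, Finset.sum_eq_single k]
    · rw [Matrix.single_apply_same, one_mul]
    · intro b _ hb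
      rw [Matrix.single_apply_of_ne]
      · rw [zero_mul]
      · intro hh
        exact hb hh.2.symm
    · intro hh
      exact absurd (Finset.mem_univ k) hh
  rw [Matrix.transvection, Matrix.add_mulVec, Pi.add_apply, Matrix.one_mulVec, h2] at h1
  exact hk (by simpa using h1)

theorem exists_move' {w : Fin 3 → F} (hw : w ≠ 0) : ∃ m : SL3 F, w ᵥ* (m : M3 F) ≠ w := by
  obtain ⟨m, hm⟩ := exists_move hw
  refine ⟨m.transpose, ?_⟩
  rw [Matrix.SpecialLinearGroup.coe_transpose, Matrix.vecMul_transpose]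
  exact hm

/-- the inner elements which fix a vector -/
def stb (w : Fin 3 → F) : Subgroup (Cor F) where
  carrier := {x | x.s = false ∧ (x.m : M3 F) *ᵥ w = w}
  one_mem' := ⟨rfl, by rw [Cor.one_m, Matrix.SpecialLinearGroup.coe_one, Matrix.one_mulVec]⟩
  mul_mem' := by
    rintro x y ⟨hx, hx'⟩ ⟨hy, hy'⟩
    refine ⟨by rw [Cor.mul_s, hx, hy]; rfl, ?_⟩
    have e : (x * y).m = x.m * y.m := by
      rw [Cor.mul_m, hy]
      rfl
    rw [e, Matrix.SpecialLinearGroup.coe_mul, ← Matrix.mulVec_mulVec, hy', hx']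
  inv_mem' := by
    rintro x ⟨hx, hx'⟩
    refine ⟨hx, ?_⟩
    have e : (x⁻¹).m = (x.m)⁻¹ := by
      rw [Cor.inv_m, hx]
      rfl
    rw [e]
    have h1 : ((x.m⁻¹ : SL3 F) : M3 F) * (x.m : M3 F) = 1 := by
      rw [← Matrix.SpecialLinearGroup.coe_mul, inv_mul_cancel, Matrix.SpecialLinearGroup.coe_one]
    calc ((x.m⁻¹ : SL3 F) : M3 F) *ᵥ w = ((x.m⁻¹ : SL3 F) : M3 F) *ᵥ ((x.m : M3 F) *ᵥ w) := by
          rw [hx']
      _ = w := by rw [Matrix.mulVec_mulVec, h1, Matrix.one_mulVec]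

/-- the inner elements which fix a functional -/
def stb' (w : Fin 3 → F) : Subgroup (Cor F) where
  carrier := {x | x.s = false ∧ w ᵥ* (x.m : M3 F) = w}
  one_mem' := ⟨rfl, by rw [Cor.one_m, Matrix.SpecialLinearGroup.coe_one, Matrix.vecMul_one]⟩
  mul_mem' := by
    rintro x y ⟨hx, hx'⟩ ⟨hy, hy'⟩
    refine ⟨by rw [Cor.mul_s, hx, hy]; rfl, ?_⟩
    have e : (x * y).m = x.m * y.m := by
      rw [Cor.mul_m, hy]
      rfl
    rw [e, Matrix.SpecialLinearGroup.coe_mul, ← Matrix.vecMul_vecMul, hx', hy']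
  inv_mem' := by
    rintro x ⟨hx, hx'⟩
    refine ⟨hx, ?_⟩
    have e : (x⁻¹).m = (x.m)⁻¹ := by
      rw [Cor.inv_m, hx]
      rfl
    rw [e]
    have h1 : (x.m : M3 F) * ((x.m⁻¹ : SL3 F) : M3 F) = 1 := by
      rw [← Matrix.SpecialLinearGroup.coe_mul, mul_inv_cancel, Matrix.SpecialLinearGroup.coe_one]
    calc w ᵥ* ((x.m⁻¹ : SL3 F) : M3 F) = (w ᵥ* (x.m : M3 F)) ᵥ* ((x.m⁻¹ : SL3 F) : M3 F) := by
          rw [hx']
      _ = w := by rw [Matrix.vecMul_vecMul, h1, Matrix.vecMul_one]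

/-- a vector killed by all functionals of two classes -/
theorem exists_common {r : ℕ} (φ : Fin r → Fin 3 → F)
    (h : ∀ i j : Fin r, i.val % 2 = j.val % 2 → ∃ c : F, φ j = c • φ i) :
    ∃ w : Fin 3 → F, w ≠ 0 ∧ ∀ i, φ i ⬝ᵥ w = 0 := by
  obtain ⟨w, hw, h0, h1⟩ := exists_kill (if h : 0 < r then φ ⟨0, h⟩ else 0)
    (if h : 1 < r then φ ⟨1, h⟩ else 0)
  refine ⟨w, hw, ?_⟩
  intro i
  rcases Nat.mod_two_eq_zero_or_one i.val with hi | hi
  · have hr : 0 < r := lt_of_le_of_lt (Nat.zero_le _) i.2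
    rw [dif_pos hr] at h0
    obtain ⟨c, hc⟩ := h ⟨0, hr⟩ i hi.symm
    rw [hc, smul_dotProduct, h0, smul_zero]
  · have hr : 1 < r := by
      have := i.2
      have : i.val ≠ 0 := by
        intro h0
        rw [h0] at hi
        exact absurd hi (by norm_num)
      omega
    rw [dif_pos hr] at h1
    obtain ⟨c, hc⟩ := h ⟨1, hr⟩ i hi.symm
    rw [hc, smul_dotProduct, h1, smul_zero]

theorem ebv_thm (hEINV : EINVStmt) (hEALT : EALTStmt) : EBVStmt := by
  intro F _ _ hF r ρ hiv hs hcom hnc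
  have hel : ∀ i, ∃ u φ : Fin 3 → F, El (ρ i) u φ := by
    intro i
    rcases hEINV F hF.1 (ρ i) (hiv i) with h | ⟨S, hS⟩
    · exact h
    · have := hS.is.1
      rw [hs i] at this
      exact absurd this Bool.false_ne_true
  choose u φ hEl using hel
  rcases hEALT F r ρ u φ hEl hcom hnc with h | h
  · obtain ⟨w, hw, hk⟩ := exists_common φ h
    obtain ⟨m, hm⟩ := exists_move hw
    refine ⟨m, fun hmem => hm ?_⟩
    have hle : Subgroup.closure (Set.range ρ) ≤ stb w := by
      rw [Subgroup.closure_le]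
      rintro _ ⟨i, rfl⟩
      refine ⟨hs i, ?_⟩
      rw [(hEl i).is.2, Matrix.add_mulVec, Matrix.one_mulVec, Matrix.vecMulVec_mulVec, hk i]
      simp
    exact (hle hmem).2
  · obtain ⟨w, hw, hk⟩ := exists_common u h
    obtain ⟨m, hm⟩ := exists_move' hw
    refine ⟨m, fun hmem => hm ?_⟩
    have hle : Subgroup.closure (Set.range ρ) ≤ stb' w := by
      rw [Subgroup.closure_le]
      rintro _ ⟨i, rfl⟩
      refine ⟨hs i, ?_⟩
      rw [(hEl i).is.2, Matrix.vecMul_add, Matrix.vecMul_one, Matrix.vecMul_vecMulVec,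
        dotProduct_comm, hk i]
      simp
    exact (hle hmem).2

end Pool.Agent.H54.SCG3
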